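import Pool.Agent.Q183.CF.GD
import Pool.Agent.Q183.CF.GF
import Pool.Agent.Q183.CF.MX
import Pool.Agent.Q188.FC.Fin

/-!
# Complete fillings of round spheres, the collar of width π/2, and better constants

Let `M` be a nonshortcutting filling of the unit round sphere `S^d`, compact or not, of any topology,
orientable or not.  We show that already the set of all points of `M` at distance less than `π/2`
from the boundary has volume at least `c · vol(S^(d+1)) / 2`, where `c = 0.886, 0.87, 0.86, 0.855,
0.85, 0.845, 0.84, 0.84` for `d = 1, ..., 8` and `c = 0.815` for all larger `d`.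

The topological hypothesis is that `M` is compact and triangulated, or that every continuous map
`M → S^d` which is constant on the set of all points at distance at least `π/2` from the boundary
fails to be the identity on the boundary.  The latter is true for all complete Riemannian manifolds
`M` with boundary `S^d`, compact or not: the set of all points at distance at most `π/2` from the
boundary is compact, so it is contained in a compact domain `N` with smooth boundary `∂M ∪ Σ`, where
`Σ` consists of points at distance more than `π/2` from `∂M`, and `∂M`, `Σ` are homologous in `N`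
modulo two.

Proof.  As in `FourFifths` (withdrawn, contained here), a point `q` is represented by a `1`-Lipschitz odd
homogeneous function on `ℝ^(d+1)` and mapped to the centre of its graph, a point of the Klein model of
the hyperbolic space.
(1) We use the distance functions `d(q, x)`, truncated so that the functions attached to points at
distance at least `π/2` from the boundary vanish.  The centre of `0` is the point `0`, so the covering
theorem holds for noncompact `M`, and all centres but `0` come from the collar.
(2) For `n = d + 1 ≤ 9` the Gaussian inequality `exp(-(s+b)/2) ≤ c⁻¹ det(1-X)` is derived from the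
spectral inequality for the odd functions `(1+q+r|z|²)ψ` and `ψ + εℓψ² + r|z|²ψ`, where the
coefficients `r` are chosen optimally.  The resulting inequalities for `s = tr X`, for the traceless
part of `X`, of Hilbert-Schmidt norm `√v`, and for `b` are sharper than those used there; for `n = 2`
they are `(3+s) v ≤ s (1+s/2) (1-5s)` and `5s + 16εb ≤ 1 + ε²(4(s+y) + 4(v/2-y²) - 2(s+y)²)`.
-/

set_option autoImplicit false

open MeasureTheory Set Metric

namespace Pool.Agent.Results.MP_aeade1_gt.CompleteFillings

open Pool.Agent.H241R3.FV

/-- Every continuous map `M → S^d` which is constant on the set of all points at distance at least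
`π/2` from the boundary fails to be the identity on the boundary. -/
def NoCollarRetraction {d : ℕ} {M : Type} [MetricSpace M] (S : Fill d M) : Prop :=
  ¬ ∃ r : M → Sph (d + 1), Continuous r ∧ (∀ x, r (S.bd x) = x) ∧
    ∃ z, ∀ q, Real.pi / 2 ≤ infDist q (range S.bd) → r q = z

/-- The volume of the set of all points of `M` at distance less than `π/2` from the boundary. -/
noncomputable def collarVol {d : ℕ} {M : Type} [MetricSpace M] (S : Fill d M) : ENNReal :=
  ∑' i, ∫⁻ c in {c | c ∈ (S.chart i).D ∧
    infDist ((S.chart i).map c) (range S.bd) < Real.pi / 2},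
      ENNReal.ofReal √((S.chart i).G c).det

/-- The volume `vol(S^(d+1)) / 2` of the round hemisphere of dimension `d + 1`. -/
noncomputable def hemisphere (d : ℕ) : ENNReal :=
  (volume : Measure (EuclideanSpace ℝ (Fin (d + 2)))).toSphere Set.univ / 2

/-- The constants: `0.886, 0.87, 0.86, 0.855, 0.85, 0.845, 0.84, 0.84` for `d = 1, ..., 8` and
`0.815` for `d > 8`. -/
noncomputable def cst : ℕ → ℝ
  | 1 => 443 / 500
  | 2 => 87 / 100
  | 3 => 43 / 50
  | 4 => 171 / 200
  | 5 => 17 / 20
  | 6 => 169 / 200
  | 7 => 21 / 25
  | 8 => 21 / 25
  | _ => 163 / 200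

private theorem chartAreaOf {n : ℕ} (hn : 0 < n) {κ : ℝ} (hκ : 0 < κ)
    (h : Pool.Agent.Q183.CF.GaussK n κ) : Pool.Agent.Q183.CF.ChartAreaK n κ := by
  open Pool.Agent.Q188.FC in
  exact Pool.Agent.Q183.CF.chartAreaK n κ hκ
    (Pool.Agent.Q183.CF.centerDiffK n κ lz gder gstr gc
      (Pool.Agent.Q183.CF.jacK n hn κ hκ ba he gh gder go dd dt h)) cl nl me wa

private theorem gaussOf {n : ℕ} (hn : 0 < n) {κ : ℝ} (hκ : 0 < κ)
    (h : Pool.Agent.Q183.CF.NumK n (Real.log κ)) : Pool.Agent.Q183.CF.GaussK n κ := by
  open Pool.Agent.Q188.FC in
  exact Pool.Agent.Q183.CF.gaussKn pl cb cm gm sa spo dl n hn κ hκ h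

/-- For every `d ≥ 1` and every nonshortcutting filling `M` of the round sphere `S^d`, compact or not
(with the topological hypothesis above), the volume of the set of all points at distance less than
`π/2` from the boundary is at least the multiple `cst d` of the volume `vol(S^(d+1)) / 2` of the
round hemisphere. It is at most the volume of `M`. -/
theorem result (d : ℕ) (hd : 1 ≤ d) (M : Type) [MetricSpace M] (S : Fill d M)
    (hS : S.NonShort) (htop : (CompactSpace M ∧ S.Triangulated) ∨ NoCollarRetraction S) :
    ENNReal.ofReal (cst d) * hemisphere d ≤ collarVol S ∧ collarVol S ≤ S.vol := by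
  have key : ∀ κ : ℝ, 0 < κ → Pool.Agent.Q183.CF.ChartAreaK (d + 1) κ →
      ENNReal.ofReal κ⁻¹ * hemisphere d ≤ collarVol S := by
    intro κ hκ h
    open Pool.Agent.Q188.FC in
    exact Pool.Agent.Q183.CF.mainK rm ba bll hl gh gl lz d hd κ hκ h M S hS htop
  refine ⟨?_, ?_⟩
  · unfold cst
    split
    · have h := key (500 / 443) (by norm_num) (chartAreaOf (by norm_num) (by norm_num) (by
        open Pool.Agent.Q188.FC in
        exact Pool.Agent.Q183.CF.gaussK2 pl cb cm gm sa spo))
      rwa [show ((500 / 443 : ℝ))⁻¹ = 443 / 500 by norm_num] at h
    · have h := key (100 / 87) (by norm_num) (chartAreaOf (by norm_num) (by norm_num)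
        (gaussOf (by norm_num) (by norm_num) (by
          push_cast
          exact Pool.Agent.Q183.CF.num3)))
      rwa [show ((100 / 87 : ℝ))⁻¹ = 87 / 100 by norm_num] at h
    · have h := key (50 / 43) (by norm_num) (chartAreaOf (by norm_num) (by norm_num)
        (gaussOf (by norm_num) (by norm_num) (by
          push_cast
          exact Pool.Agent.Q183.CF.num4)))
      rwa [show ((50 / 43 : ℝ))⁻¹ = 43 / 50 by norm_num] at h
    · have h := key (200 / 171) (by norm_num) (chartAreaOf (by norm_num) (by norm_num)
        (gaussOf (by norm_num) (by norm_num) (by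
          push_cast
          exact Pool.Agent.Q183.CF.num5)))
      rwa [show ((200 / 171 : ℝ))⁻¹ = 171 / 200 by norm_num] at h
    · have h := key (20 / 17) (by norm_num) (chartAreaOf (by norm_num) (by norm_num)
        (gaussOf (by norm_num) (by norm_num) (by
          push_cast
          exact Pool.Agent.Q183.CF.num6)))
      rwa [show ((20 / 17 : ℝ))⁻¹ = 17 / 20 by norm_num] at h
    · have h := key (200 / 169) (by norm_num) (chartAreaOf (by norm_num) (by norm_num)
        (gaussOf (by norm_num) (by norm_num) (by
          push_cast
          exact Pool.Agent.Q183.CF.num7)))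
      rwa [show ((200 / 169 : ℝ))⁻¹ = 169 / 200 by norm_num] at h
    · have h := key (25 / 21) (by norm_num) (chartAreaOf (by norm_num) (by norm_num)
        (gaussOf (by norm_num) (by norm_num) (by
          push_cast
          exact Pool.Agent.Q183.CF.num8)))
      rwa [show ((25 / 21 : ℝ))⁻¹ = 21 / 25 by norm_num] at h
    · have h := key (25 / 21) (by norm_num) (chartAreaOf (by norm_num) (by norm_num)
        (gaussOf (by norm_num) (by norm_num) (by
          push_cast
          exact Pool.Agent.Q183.CF.num9)))
      rwa [show ((25 / 21 : ℝ))⁻¹ = 21 / 25 by norm_num] at h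
    · have h := key (200 / 163) (by norm_num) (Pool.Agent.Q188.FC.ca (d + 1) (Nat.succ_pos d))
      rwa [show ((200 / 163 : ℝ))⁻¹ = 163 / 200 by norm_num] at h
  · unfold collarVol
    refine ENNReal.tsum_le_tsum fun i => ?_
    exact lintegral_mono_set fun c hc => hc.1

end Pool.Agent.Results.MP_aeade1_gt.CompleteFillings
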