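import Pool.Agent.Q196.FI.Grp

/-! # MP_aeade1_gt: the sharp collar inequality for conformal multiples of diagonal slices

Let `g_s` be Riemannian metrics on `S^d`, `d ≥ 2`, which are invariant under a closed subgroup `G`
of the orthogonal group, such that every tangent space of `S^d` has an orthonormal basis which is
orthogonal for all the `g_s` and whose great circles have constant speeds for all the `g_s`, and
let `b` be a positive continuous function on the collar which looks the same on the `G`-orbits of
all the points of each of these great circles (no condition if `G` is transitive on `S^d`). If the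
metric `ds² + b² g_s` on the collar `[0, R) × S^d` has no shortcuts between antipodal points of the
boundary sphere, then it has at least the volume of the collar of width `min R (π/2)` of the
boundary of the round hemisphere, with equality for `R ≤ π/2` only for the round metric. This
applies to all `b` if the `g_s` are invariant under the unitary group. -/

set_option autoImplicit false

namespace Pool.Agent.Results.MP_aeade1_gt.ConformalFrames

open Real Set Pool.Agent.Y499.HC Pool.Agent.Y499.HR Pool.Agent.Q196.FE Pool.Agent.Q196.FH
open Pool.Agent.Q196.FI

theorem result :
    (∀ (d : ℕ) (R : ℝ) (m : Met d) (b : ℝ → E d → ℝ) (G : Subgroup (Isom d)), Collar R m b →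
      ClosedG G → InvG G R m →
      (∀ x : E d, ‖x‖ = 1 → ∃ w : Fin d → E d, Frame R m x w ∧ ∀ i, SameG G R b x (w i)) →
      Sharp R (scale b m)) ∧
    (∀ (d : ℕ) (R : ℝ) (m : Met d) (b : ℝ → E d → ℝ) (J : Lin d), Collar R m b →
      Cpx J → UInv J R m → Sharp R (scale b m)) :=
  ⟨fun _ _ _ _ _ h hG hI hfr =>
      final h.width hG h.good h.posDef hI h.factor h.nonShort h.dim hfr,
    fun _ _ _ _ _ h hJ hU =>
      final_unitary h.width h.good h.posDef hJ hU h.factor h.nonShort h.dim⟩

end Pool.Agent.Results.MP_aeade1_gt.ConformalFrames
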