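import Pool.Agent.Q183.HD.P

/-!
# Fillings of round spheres which are round outside a large ball, in high dimensions

Let `0 < R < π/2`. There is a number `d₀`, depending only on `R`, such that for all `d ≥ d₀` the
following holds. Let `H` be the closed unit hemisphere of dimension `d + 1` with pole `n`, and let `B`
be a closed ball of radius `R` in `H`, with any centre `c`. Let `K` be a filling of the sphere `S^d`,
of any topology, orientable or not, and glue `K` to the round piece `H ∖ int B` along the boundary
sphere of `B`. If the boundary sphere of `H` has no shortcuts in the space `M` so obtained, then the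
volume of `K` is at least the volume of `B`, so that `M` has at least the volume of `H`.
With `c = n` the round piece is a round collar of width `π/2 - R` of the boundary sphere, so that for
every fixed width of the collar Gromov's inequality holds in all high dimensions for fillings with
such a collar.

The data are: a metric space `M` with a `1`-Lipschitz map `j` from `K` and a map `ι` from the round
piece which does not increase the lengths of the great circle segments outside `B`; the maps agree on
the boundary sphere of `B`.

The underlying theorem, `Pool.Agent.Q183.HD.ball_minimal`, is that for `d ≥ d₀(R)` spherical balls of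
radius `R` and dimension `d + 1` are minimal fillings of their boundary spheres with the spherical
distances.

Proof of `ball_minimal`.  `n = d + 1`, `ρ = sin R`.  A point `q` of `K` is represented by the odd
homogeneous function `φ_q` on `ℝ^n` with `φ_q(x) = cos (distance to the point x of the great sphere
polar to c)` on the unit sphere, the distance being extended from the boundary by infimal convolution
and truncated.  The functions `φ_q` are Lipschitz on the unit sphere with constant `κ`,
`κ² = 2ρ² - ρ⁴ < 1`, and bounded by `κ`.  The centre of `φ` is the zero `p` of
`p ↦ ∫ (∫ (‖y‖² - a²)^k da) exp(-(‖y‖² - ⟨p,y⟩²)/2) y dy`, where `a` runs from `⟨p,y⟩` to `φ(y)`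
and the outer integral is over `ℝ^n`; for `φ = ⟨b,·⟩` it is `b`, so that the map from `q` to the
centre of `φ_q` is the orthogonal projection on `c^⊥` if `K = B`.  The degree `2k + 1` is at least a constant
times `1/(1 - ρ'²)` with `κ < ρ' < 1` and is fixed while `n` grows.  By the concentration of measure
zeros have norm at most `ρ'` if `n` is large, at all zeros the derivative is nondegenerate, and the
zero is unique by a homotopy; the derivative of the centre map has a Jacobian, with respect to the
volume of the sphere, of at most `1`, because the term of second order of the weight wins over the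
distortion of the Gram matrix when `2k + 1 ≥ 80/(1 - ρ'²)`; the centre map covers the ball of radius
`ρ` by a degree argument modulo `2`.
-/

set_option autoImplicit false

namespace Pool.Agent.Results.MP_aeade1_gt.LargeBalls

open Real MeasureTheory InnerProductGeometry Pool.Agent.H241R3.FV Pool.Agent.Q183.CN

/-- `M` consists of the round piece, the hemisphere with pole `n` without the open ball of radius `R`
about `c`, and of the space `K`, glued along the boundary sphere of the ball.  `J` is a linear
isometry onto the orthogonal complement of `c`. -/
structure Glued {d : ℕ} {K M : Type} [MetricSpace K] [MetricSpace M] (S : Fill d K)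
    (n c : E (d + 2)) (R : ℝ) (J : E (d + 1) →ₗᵢ[ℝ] E (d + 2)) (j : K → M)
    (ι : E (d + 2) → M) : Prop where
  /-- `J` maps to the orthogonal complement of the unit vector `c` -/
  orth : ‖c‖ = 1 ∧ ∀ v, inner ℝ (J v) c = 0
  /-- the ball is contained in the hemisphere -/
  ball : ∀ x : E (d + 2), ‖x‖ = 1 → angle x c ≤ R → 0 ≤ inner ℝ x n
  /-- the map of the inner part is `1`-Lipschitz -/
  inside : ∀ x y, dist (j x) (j y) ≤ dist x y
  /-- the map of the round piece does not increase the lengths of great circle segments outside
  the ball -/
  outside : ∀ x ∈ Outside n c R, ∀ y ∈ Outside n c R, Free c R x y → dist (ι x) (ι y) ≤ angle x y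
  /-- the maps agree on the boundary sphere of the ball -/
  glue : ∀ v : Sph (d + 1), ι (bp R c J v) = j (S.bd v)

/-- The boundary sphere of the hemisphere with pole `n` has no shortcuts. -/
def NonShortcutting {d : ℕ} {M : Type} [MetricSpace M] (n : E (d + 2)) (ι : E (d + 2) → M) : Prop :=
  ∀ x y, ‖x‖ = 1 → ‖y‖ = 1 → inner ℝ x n = 0 → inner ℝ y n = 0 → angle x y ≤ dist (ι x) (ι y)

/-- The volume of the ball of radius `R` about `c` in the unit sphere of dimension `d + 1`. -/
noncomputable def volBall {d : ℕ} (c : E (d + 2)) (R : ℝ) : ENNReal :=
  (volume : Measure (E (d + 2))).toSphere {x : Sph (d + 2) | angle (x : E (d + 2)) c ≤ R}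

theorem result {R : ℝ} (hR0 : 0 < R) (hR1 : R < π / 2) : ∃ d₀ : ℕ, ∀ d : ℕ, d₀ ≤ d →
    ∀ {K : Type} [MetricSpace K] (S : Fill d K)
      (_ : (CompactSpace K ∧ S.Triangulated) ∨ S.NoRetraction) {M : Type} [MetricSpace M]
      {n c : E (d + 2)} {J : E (d + 1) →ₗᵢ[ℝ] E (d + 2)} {j : K → M} {ι : E (d + 2) → M}
      (_ : Glued S n c R J j ι) (_ : NonShortcutting n ι), volBall c R ≤ S.vol := by
  obtain ⟨d₀, h⟩ := Pool.Agent.Q183.HD.round_outside hR0 hR1
  refine ⟨d₀, fun d hd K _ S hT M _ n c J j ι hg hno => ?_⟩
  exact h d hd S hT hg.orth.1 hg.orth.2 hg.ball hg.inside hg.outside hg.glue hno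

end Pool.Agent.Results.MP_aeade1_gt.LargeBalls
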