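import Pool.Agent.Q183.CM.L

/-!
# Fillings of round spheres which are round outside a ball, in all dimensions

Let `H` be the closed unit hemisphere of dimension `d + 1` with pole `n`, and let `B` be a closed ball
of radius `R` in `H` with `41 sin² R ≤ 5` (`R ≤ 20.4°`), with any centre `c`. Let `K` be a filling of
the sphere `S^d`, of any topology, orientable or not, and glue `K` to the round piece `H ∖ int B` along
the boundary sphere of `B`. If the boundary sphere of `H` has no shortcuts in the space `M` so
obtained, then the volume of `K` is at least the volume of `B`, so that `M` has at least the volume of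
`H`.  The bound for the radius does not depend on the dimension.

The data are: a metric space `M` with a `1`-Lipschitz map `j` from `K` and a map `ι` from the round
piece which does not increase the lengths of the great circle segments outside `B`; the maps agree on
the boundary sphere of `B`.

The underlying theorem, `ball_minimal`, is that spherical balls of radius `R` are minimal fillings of
their boundary spheres with the spherical distances.

Proof of `ball_minimal`.  `n = d + 1`.  A point `q` of `K` is represented by the odd homogeneous
function `φ_q` on `ℝ^n` with `φ_q(x) = cos (distance to the point x of the great sphere polar to c)`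
on the unit sphere, the distance being extended from the boundary by infimal convolution and
truncated.  The centre of `φ` is the zero `p` of
`p ↦ ∫ (φ(y) - ⟨p,y⟩) exp(-(‖y‖² - ⟨p,y⟩²)/2) y dy` in the ball of radius `sin R`.  For
`φ = ⟨b,·⟩` it is `b`, so that the map from `q` to the centre of `φ_q` is the orthogonal projection on
`c^⊥` if `K = B`, and in general it covers the ball of radius `sin R`.  In the coordinates in which
`exp(-(‖y‖² - ⟨p,y⟩²)/2)` is the standard Gaussian, with `s = φ - ⟨p,·⟩`, the Jacobian with respect to
the volume of the sphere is at most `exp(-E[s²]/2) / det(1 - A)` with `A = E[s ⟨w,z⟩ z zᵀ]`,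
`‖w‖ ≤ tan R`.  Here `tr A = 0` and `‖A‖² ≤ 6 E[s²] tan² R` (Hilbert-Schmidt norm) because
`E[s z] = 0`.  The function `φ` is Lipschitz with constant `√2 sin R`, so that `3 E[s²]` is at most
`2 sin² R` times a factor which is `1` for `p = 0`, and this gives
`det(1 - A) ≥ exp(-3/5 ‖A‖²) ≥ exp(-E[s²]/2)`, as `36/5 tan² R ≤ 1`; so the Jacobian is at most `1`.
-/

set_option autoImplicit false

namespace Pool.Agent.Results.MP_aeade1_gt.RoundOutsideBall

open Real MeasureTheory InnerProductGeometry Pool.Agent.H241R3.FV Pool.Agent.Q183.CN

/-- `M` consists of the round piece, the hemisphere with pole `n` without the open ball of radius `R`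
about `c`, and of the space `K`, glued along the boundary sphere of the ball.  `J` is a linear
isometry onto the orthogonal complement of `c`. -/
structure Glued {d : ℕ} {K M : Type} [MetricSpace K] [MetricSpace M] (S : Fill d K)
    (n c : E (d + 2)) (R : ℝ) (J : E (d + 1) →ₗᵢ[ℝ] E (d + 2)) (j : K → M)
    (ι : E (d + 2) → M) : Prop where
  /-- `J` maps to the orthogonal complement of the unit vector `c` -/
  orth : ‖c‖ = 1 ∧ ∀ v, inner ℝ (J v) c = 0
  /-- the ball is contained in the hemisphere -/
  ball : ∀ x : E (d + 2), ‖x‖ = 1 → angle x c ≤ R → 0 ≤ inner ℝ x n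
  /-- the map of the inner part is `1`-Lipschitz -/
  inside : ∀ x y, dist (j x) (j y) ≤ dist x y
  /-- the map of the round piece does not increase the lengths of great circle segments outside
  the ball -/
  outside : ∀ x ∈ Outside n c R, ∀ y ∈ Outside n c R, Free c R x y → dist (ι x) (ι y) ≤ angle x y
  /-- the maps agree on the boundary sphere of the ball -/
  glue : ∀ v : Sph (d + 1), ι (bp R c J v) = j (S.bd v)

/-- The boundary sphere of the hemisphere with pole `n` has no shortcuts. -/
def NonShortcutting {d : ℕ} {M : Type} [MetricSpace M] (n : E (d + 2)) (ι : E (d + 2) → M) : Prop :=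
  ∀ x y, ‖x‖ = 1 → ‖y‖ = 1 → inner ℝ x n = 0 → inner ℝ y n = 0 → angle x y ≤ dist (ι x) (ι y)

/-- The volume of the ball of radius `R` about `c` in the unit sphere of dimension `d + 1`. -/
noncomputable def volBall {d : ℕ} (c : E (d + 2)) (R : ℝ) : ENNReal :=
  (volume : Measure (E (d + 2))).toSphere {x : Sph (d + 2) | angle (x : E (d + 2)) c ≤ R}

theorem result (d : ℕ) {K : Type} [MetricSpace K] (S : Fill d K)
    (hT : (CompactSpace K ∧ S.Triangulated) ∨ S.NoRetraction) {R : ℝ} (hR0 : 0 < R)
    (hR1 : R < π / 2) (hR : 41 * sin R ^ 2 ≤ 5) {M : Type} [MetricSpace M] {n c : E (d + 2)}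
    {J : E (d + 1) →ₗᵢ[ℝ] E (d + 2)} {j : K → M} {ι : E (d + 2) → M} (h : Glued S n c R J j ι)
    (hno : NonShortcutting n ι) : volBall c R ≤ S.vol :=
  Pool.Agent.Q183.CM.round_outside S hT hR0 hR1 hR h.orth.1 h.orth.2 h.ball h.inside h.outside h.glue hno

end Pool.Agent.Results.MP_aeade1_gt.RoundOutsideBall
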